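import Pool.Agent.helper82.OG.Spec

set_option autoImplicit false

namespace Pool.Agent.OG

open Finset Pool.Agent.EP

theorem GAM (hE : EXP_stmt) : GAM_stmt := by
  intro ε h0 h1
  obtain ⟨δ, hδ, hE⟩ := hE ε h0 h1
  refine ⟨δ, Real.exp (Real.log 2 / δ), hδ, ?_⟩
  intro Y K τ A β hY0 hY1 hβ1 hβ2 hK1 hK2 hτ hA hτA hAY h3 h4
  have hL : 0 < Real.log Y := Real.log_pos hY1
  have hYp : 0 < Y := by linarith
  have h2 : Real.log 2 ≤ δ * Real.log Y := by
    have := Real.log_le_log (Real.exp_pos _) hY0
    rw [Real.log_exp, div_le_iff₀ hδ] at this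
    linarith
  have hKp : 0 < K := lt_of_lt_of_le (Real.rpow_pos_of_pos hYp _) hK1
  have hτp : 0 < τ := lt_of_lt_of_le (Real.rpow_pos_of_pos hYp _) hτ
  have hAp : 0 < A := by linarith
  obtain ⟨k, hk⟩ : ∃ k : ℝ, Real.log K = k * Real.log Y := ⟨Real.log K / Real.log Y, by field_simp⟩
  obtain ⟨b, hb⟩ : ∃ b : ℝ, Real.log τ = b * Real.log Y := ⟨Real.log τ / Real.log Y, by field_simp⟩
  obtain ⟨a, ha⟩ : ∃ a : ℝ, Real.log A = a * Real.log Y := ⟨Real.log A / Real.log Y, by field_simp⟩
  have e1 : 1 / √5 - δ ≤ k := by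
    have := Real.log_le_log (Real.rpow_pos_of_pos hYp _) hK1
    rw [Real.log_rpow hYp, hk] at this
    exact le_of_mul_le_mul_right this hL
  have e2 : k ≤ 1 / √5 + δ := by
    have := Real.log_le_log hKp hK2
    rw [Real.log_rpow hYp, hk] at this
    exact le_of_mul_le_mul_right this hL
  have e3 : 1 / 2 - δ ≤ b := by
    have := Real.log_le_log (Real.rpow_pos_of_pos hYp _) hτ
    rw [Real.log_rpow hYp, hb] at this
    exact le_of_mul_le_mul_right this hL
  have e4 : 0 ≤ a := by
    have := Real.log_nonneg hA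
    rw [ha] at this
    exact nonneg_of_mul_nonneg_left this hL
  have e5 : 2 * b ≤ a + 1 := by
    have := Real.log_le_log (by positivity) hτA
    rw [Real.log_pow, Real.log_mul hAp.ne' hYp.ne', hb, ha] at this
    push_cast at this
    refine le_of_mul_le_mul_right ?_ hL
    linarith
  have e6 : a + 1 ≤ max 1 (2 * b) + δ := by
    have h5 := Real.log_le_log (by positivity) hAY
    rw [Real.log_mul hAp.ne' hYp.ne', ha] at h5
    rcases le_total Y (τ ^ 2) with hc | hc
    · rw [max_eq_right hc, Real.log_mul (Real.rpow_pos_of_pos hYp _).ne' (by positivity),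
        Real.log_rpow hYp, Real.log_pow, hb] at h5
      push_cast at h5
      have h6 : a + 1 ≤ δ + 2 * b := by
        refine le_of_mul_le_mul_right ?_ hL
        linarith
      have := le_max_right 1 (2 * b)
      linarith
    · rw [max_eq_left hc, Real.log_mul (Real.rpow_pos_of_pos hYp _).ne' (by positivity),
        Real.log_rpow hYp] at h5
      have h6 : a + 1 ≤ δ + 1 := by
        refine le_of_mul_le_mul_right ?_ hL
        linarith
      have := le_max_left 1 (2 * b)
      linarith
  have e7 : k + b ≤ β * (k + 1) + δ := by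
    have h5 := Real.log_le_log (by positivity) h3
    rw [Real.log_mul hKp.ne' hτp.ne', Real.log_mul (Real.rpow_pos_of_pos hYp _).ne'
      (Real.rpow_pos_of_pos (by positivity) _).ne', Real.log_rpow hYp, Real.log_rpow (by positivity),
      Real.log_mul hKp.ne' hYp.ne', hk, hb] at h5
    refine le_of_mul_le_mul_right ?_ hL
    linarith
  have hs : Real.log (√(K / A) + 1) ≤ (δ + max ((k - a) / 2) 0) * Real.log Y := by
    have h5 : √(K / A) + 1 ≤ 2 * max (√(K / A)) 1 := by
      have := le_max_left (√(K / A)) 1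
      have := le_max_right (√(K / A)) 1
      linarith
    have h6 : 0 < √(K / A) := Real.sqrt_pos.mpr (by positivity)
    have h7 := Real.log_le_log (by positivity) h5
    have h8 : 0 < max (√(K / A)) 1 := lt_max_of_lt_left h6
    rw [Real.log_mul (by norm_num) h8.ne'] at h7
    have h9 : Real.log (max (√(K / A)) 1) ≤ max ((k - a) / 2) 0 * Real.log Y := by
      rcases le_total (√(K / A)) 1 with hc | hc
      · rw [max_eq_right hc, Real.log_one]
        exact mul_nonneg (le_max_right _ _) hL.le
      · rw [max_eq_left hc, Real.log_sqrt (by positivity), Real.log_div hKp.ne' hAp.ne', hk, ha]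
        have := mul_le_mul_of_nonneg_right (le_max_left ((k - a) / 2) 0) hL.le
        linarith
    linarith
  have e8 : k + b + (a + 1) / 2 ≤ max ((k - a) / 2) 0 + β * (k + 2 * a + 1) + 2 * δ := by
    have h5 := Real.log_le_log (by positivity) h4
    have h6 : 0 < √(K / A) + 1 := by positivity
    rw [Real.log_mul (by positivity) (by positivity), Real.log_mul hKp.ne' hτp.ne',
      Real.log_sqrt (by positivity), Real.log_mul hAp.ne' hYp.ne',
      Real.log_mul (Real.rpow_pos_of_pos hYp _).ne' (by positivity),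
      Real.log_mul h6.ne' (by positivity), Real.log_rpow hYp, Real.log_rpow (by positivity),
      Real.log_mul (by positivity) hYp.ne', Real.log_mul hKp.ne' (by positivity), Real.log_pow,
      hk, hb, ha] at h5
    push_cast at h5
    refine le_of_mul_le_mul_right ?_ hL
    nlinarith [h5, hs]
  exact hE k b a β hβ1 hβ2 (abs_le.mpr ⟨by linarith, by linarith⟩) e3 e4 e5 e6 e7 e8

end Pool.Agent.OG
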